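import Pool.Agent.Helper19.PS.Defs

/-!
# Project PS, piece PS-7: measurability, positivity and monotonicity of the bound
-/

set_option autoImplicit false

open MeasureTheory Set Metric Filter Module Matrix
open scoped NNReal Topology RealInnerProductSpace ENNReal Real

namespace Pool.Agent.Helper19.PS

private theorem ps7_dot_self_nonneg {d : ℕ} (v : Fin d → ℝ) : 0 ≤ v ⬝ᵥ v :=
  Finset.sum_nonneg fun i _ => mul_self_nonneg (v i)

theorem NF.measurable_hh {d : ℕ} (S : NF d) (m : ℕ) (c : ℝ) :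
    Measurable (fun p : (ℝ × ℝ) × EuclideanSpace ℝ (Fin d) => S.hh m c p.1.1 p.1.2 p.2.ofLp) := by
  have hz : Measurable (fun p : (ℝ × ℝ) × EuclideanSpace ℝ (Fin d) => p.1.1) :=
    measurable_fst.comp measurable_fst
  have hτ : Measurable (fun p : (ℝ × ℝ) × EuclideanSpace ℝ (Fin d) => p.1.2) :=
    measurable_snd.comp measurable_fst
  have hy : ∀ i, Measurable (fun p : (ℝ × ℝ) × EuclideanSpace ℝ (Fin d) => p.2.ofLp i) := by
    intro i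
    have h1 : Measurable (fun y : EuclideanSpace ℝ (Fin d) => y.ofLp i) := by fun_prop
    exact h1.comp measurable_snd
  have hdot : ∀ v : Fin d → ℝ, Measurable
      (fun p : (ℝ × ℝ) × EuclideanSpace ℝ (Fin d) => v ⬝ᵥ p.2.ofLp) := by
    intro v
    unfold dotProduct
    exact Finset.measurable_sum _ fun i _ => (measurable_const.mul (hy i))
  have hYY : Measurable
      (fun p : (ℝ × ℝ) × EuclideanSpace ℝ (Fin d) => p.2.ofLp ⬝ᵥ p.2.ofLp) := by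
    unfold dotProduct
    exact Finset.measurable_sum _ fun i _ => ((hy i).mul (hy i))
  have hCC : ∀ A : Matrix (Fin d) (Fin d) ℝ, Measurable
      (fun p : (ℝ × ℝ) × EuclideanSpace ℝ (Fin d) => (A *ᵥ p.2.ofLp) ⬝ᵥ (A *ᵥ p.2.ofLp)) := by
    intro A
    have h1 : ∀ i, Measurable
        (fun p : (ℝ × ℝ) × EuclideanSpace ℝ (Fin d) => (A *ᵥ p.2.ofLp) i) := by
      intro i
      exact hdot (fun j => A i j)
    unfold dotProduct
    exact Finset.measurable_sum _ fun i _ => ((h1 i).mul (h1 i))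
  have hRS : Measurable
      (fun p : (ℝ × ℝ) × EuclideanSpace ℝ (Fin d) => S.RS c p.1.2 p.2.ofLp) := by
    unfold NF.RS
    refine (measurable_const.mul hYY).add (Finset.measurable_sum _ fun i _ => ?_)
    exact (((hdot (S.b i)).pow_const 2).add ((hτ.pow_const 2).mul measurable_const)).add
      (hCC (S.C i))
  have h3m : Measurable (fun p : (ℝ × ℝ) × EuclideanSpace ℝ (Fin d) =>
      h3 d m c (S.be + c) (2 * S.be + c) S.be p.1.1 p.1.2 (p.2.ofLp ⬝ᵥ p.2.ofLp)) := by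
    unfold h3
    have e1 : Measurable (fun p : (ℝ × ℝ) × EuclideanSpace ℝ (Fin d) =>
        (√(p.1.1 ^ 2 + c * (p.2.ofLp ⬝ᵥ p.2.ofLp)))⁻¹) :=
      (((hz.pow_const 2).add (measurable_const.mul hYY)).sqrt).inv
    have e2 : Measurable (fun p : (ℝ × ℝ) × EuclideanSpace ℝ (Fin d) =>
        ((S.be + c) ^ 2 * (p.2.ofLp ⬝ᵥ p.2.ofLp + p.1.2 ^ 2) ^ 2
          + 4 * S.be * p.1.2 ^ 2 * p.1.1 ^ 2)) :=
      (measurable_const.mul ((hYY.add (hτ.pow_const 2)).pow_const 2)).add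
        ((measurable_const.mul (hτ.pow_const 2)).mul (hz.pow_const 2))
    have e3 : Measurable (fun p : (ℝ × ℝ) × EuclideanSpace ℝ (Fin d) =>
        (((d : ℝ) + 1) * p.1.1 ^ 2
          + (2 * S.be + c) * (p.2.ofLp ⬝ᵥ p.2.ofLp + p.1.2 ^ 2)) ^ (m - 2)) :=
      ((measurable_const.mul (hz.pow_const 2)).add
        (measurable_const.mul (hYY.add (hτ.pow_const 2)))).pow_const _
    exact ((measurable_const.mul e1).mul e2).mul e3
  have habs : ∀ k : ℕ, Measurable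
      (fun p : (ℝ × ℝ) × EuclideanSpace ℝ (Fin d) => |p.1.1| ^ k) := fun k =>
    (hz.abs).pow_const k
  unfold NF.hh
  exact ((measurable_const.mul (habs _)).add
    ((measurable_const.mul (habs _)).mul hRS)).add h3m

private theorem ps7_trace_nonneg {d : ℕ} (A : Matrix (Fin d) (Fin d) ℝ) :
    0 ≤ trace (Aᵀ * A) := by
  unfold Matrix.trace
  refine Finset.sum_nonneg fun i _ => ?_
  rw [Matrix.diag_apply, Matrix.mul_apply]
  exact Finset.sum_nonneg fun j _ => mul_self_nonneg _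

private theorem ps7_be_nonneg {d : ℕ} (S : NF d) : 0 ≤ S.be := by
  have h1 : ∑ i, (S.a i ⬝ᵥ S.a i + (S.b i ⬝ᵥ S.b i + 1 / 2 * trace ((S.C i)ᵀ * S.C i)))
      = (d : ℝ) := by
    have h2 : ∀ i, S.a i ⬝ᵥ S.a i + (S.b i ⬝ᵥ S.b i + 1 / 2 * trace ((S.C i)ᵀ * S.C i)) = 1 := by
      intro i
      have := S.orth i i
      rw [if_pos rfl] at this
      linarith
    rw [Finset.sum_congr rfl fun i _ => h2 i]
    simp
  rw [Finset.sum_add_distrib, S.top] at h1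
  have h3 : 0 ≤ ∑ i, (S.b i ⬝ᵥ S.b i + 1 / 2 * trace ((S.C i)ᵀ * S.C i)) := by
    refine Finset.sum_nonneg fun i _ => ?_
    have h4 := ps7_dot_self_nonneg (S.b i)
    have h5 := ps7_trace_nonneg (S.C i)
    positivity
  linarith

private theorem ps7_be_le {d : ℕ} (S : NF d) : S.be ≤ d := by
  have h1 : 0 ≤ ∑ i, S.a i ⬝ᵥ S.a i := Finset.sum_nonneg fun i _ => ps7_dot_self_nonneg _
  rw [S.top] at h1
  linarith

private theorem ps7_one_sub_nonneg {d : ℕ} (S : NF d) : 0 ≤ 1 - S.be / d := by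
  have h1 := ps7_be_le S
  rcases Nat.eq_zero_or_pos d with h0 | h0
  · subst h0
    norm_num
  · have h2 : (0 : ℝ) < d := Nat.cast_pos.2 h0
    have h3 : S.be / d ≤ 1 := by
      rw [div_le_one h2]
      exact h1
    linarith

/-- the part of `RS` quadratic in `y`. -/
private def ps7_U {d : ℕ} (S : NF d) (c : ℝ) (y : Fin d → ℝ) : ℝ :=
  c * (y ⬝ᵥ y) + ∑ i, ((S.b i ⬝ᵥ y) ^ 2 + (S.C i *ᵥ y) ⬝ᵥ (S.C i *ᵥ y))

/-- the part of `RS` quadratic in `τ`. -/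
private def ps7_V {d : ℕ} (S : NF d) : ℝ := ∑ i, S.b i ⬝ᵥ S.b i

private theorem ps7_RS {d : ℕ} (S : NF d) (c τ : ℝ) (y : Fin d → ℝ) :
    S.RS c τ y = ps7_U S c y + τ ^ 2 * ps7_V S := by
  unfold NF.RS ps7_U ps7_V
  rw [Finset.mul_sum, add_assoc, ← Finset.sum_add_distrib]
  congr 1
  exact Finset.sum_congr rfl fun i _ => by ring

private theorem ps7_U_nonneg {d : ℕ} (S : NF d) (c : ℝ) (hc : 0 ≤ c) (y : Fin d → ℝ) :
    0 ≤ ps7_U S c y := by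
  unfold ps7_U
  refine add_nonneg (mul_nonneg hc (ps7_dot_self_nonneg y)) (Finset.sum_nonneg fun i _ => ?_)
  exact add_nonneg (sq_nonneg _) (ps7_dot_self_nonneg _)

private theorem ps7_V_nonneg {d : ℕ} (S : NF d) : 0 ≤ ps7_V S :=
  Finset.sum_nonneg fun i _ => ps7_dot_self_nonneg _

private theorem ps7_U_smul {d : ℕ} (S : NF d) (c s : ℝ) (y : Fin d → ℝ) :
    ps7_U S c (s • y) = s ^ 2 * ps7_U S c y := by
  unfold ps7_U
  rw [mul_add, Finset.mul_sum]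
  congr 1
  · rw [smul_dotProduct, dotProduct_smul, smul_eq_mul, smul_eq_mul]
    ring
  · refine Finset.sum_congr rfl fun i _ => ?_
    rw [dotProduct_smul, Matrix.mulVec_smul, smul_dotProduct, dotProduct_smul, smul_eq_mul,
      smul_eq_mul, smul_eq_mul]
    ring

theorem NF.hh_nonneg {d : ℕ} (S : NF d) (m : ℕ) (hm : 2 ≤ m) (c : ℝ) (hc0 : 0 ≤ c) (z τ : ℝ)
    (y : Fin d → ℝ) : 0 ≤ S.hh m c z τ y := by
  have hbe := ps7_be_nonneg S
  have h1 := ps7_one_sub_nonneg S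
  have hY := ps7_dot_self_nonneg y
  have hRS : 0 ≤ S.RS c τ y := by
    rw [ps7_RS]
    exact add_nonneg (ps7_U_nonneg S c hc0 y) (mul_nonneg (sq_nonneg _) (ps7_V_nonneg S))
  have hm1 : (0 : ℝ) ≤ (m : ℝ) - 1 := by
    have : (2 : ℝ) ≤ m := by exact_mod_cast hm
    linarith
  unfold NF.hh h3
  positivity

/-- the monotonicity of the third term, in scalar form -/
private theorem ps7_scalar (D e3 e1 be z2 Y t r2 s2 : ℝ) (k : ℕ) (hD : 0 ≤ D) (he3 : 0 ≤ e3)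
    (hbe : 0 ≤ be) (hz : 0 ≤ z2) (hY : 0 ≤ Y) (ht : 0 ≤ t) (hr : 0 ≤ r2) (hrs : r2 ≤ s2) :
    r2 ^ (k + 2) * ((e1 ^ 2 * (s2 * Y + t) ^ 2 + 4 * be * t * (s2 * z2))
      * (D * (s2 * z2) + e3 * (s2 * Y + t)) ^ k)
    ≤ s2 ^ (k + 2) * ((e1 ^ 2 * (r2 * Y + t) ^ 2 + 4 * be * t * (r2 * z2))
      * (D * (r2 * z2) + e3 * (r2 * Y + t)) ^ k) := by
  have hs : 0 ≤ s2 := hr.trans hrs
  have h1 : r2 * (s2 * Y + t) ≤ s2 * (r2 * Y + t) := by nlinarith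
  have h1' : 0 ≤ r2 * (s2 * Y + t) := by positivity
  have h2 : (r2 * (s2 * Y + t)) ^ 2 ≤ (s2 * (r2 * Y + t)) ^ 2 := pow_le_pow_left₀ h1' h1 2
  have hT : r2 ^ 2 * (e1 ^ 2 * (s2 * Y + t) ^ 2 + 4 * be * t * (s2 * z2))
      ≤ s2 ^ 2 * (e1 ^ 2 * (r2 * Y + t) ^ 2 + 4 * be * t * (r2 * z2)) := by
    have h3 : e1 ^ 2 * (r2 * (s2 * Y + t)) ^ 2 ≤ e1 ^ 2 * (s2 * (r2 * Y + t)) ^ 2 :=
      mul_le_mul_of_nonneg_left h2 (sq_nonneg _)
    have h4 : (4 * be * t * z2 * (r2 * s2)) * r2 ≤ (4 * be * t * z2 * (r2 * s2)) * s2 :=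
      mul_le_mul_of_nonneg_left hrs (by positivity)
    calc r2 ^ 2 * (e1 ^ 2 * (s2 * Y + t) ^ 2 + 4 * be * t * (s2 * z2))
        = e1 ^ 2 * (r2 * (s2 * Y + t)) ^ 2 + (4 * be * t * z2 * (r2 * s2)) * r2 := by ring
      _ ≤ e1 ^ 2 * (s2 * (r2 * Y + t)) ^ 2 + (4 * be * t * z2 * (r2 * s2)) * s2 :=
          add_le_add h3 h4
      _ = _ := by ring
  have hQ : r2 * (D * (s2 * z2) + e3 * (s2 * Y + t)) ≤ s2 * (D * (r2 * z2) + e3 * (r2 * Y + t)) := by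
    have h3 : e3 * (r2 * (s2 * Y + t)) ≤ e3 * (s2 * (r2 * Y + t)) :=
      mul_le_mul_of_nonneg_left h1 he3
    calc r2 * (D * (s2 * z2) + e3 * (s2 * Y + t))
        = D * (r2 * s2 * z2) + e3 * (r2 * (s2 * Y + t)) := by ring
      _ ≤ D * (r2 * s2 * z2) + e3 * (s2 * (r2 * Y + t)) := by linarith
      _ = _ := by ring
  have hQk : (r2 * (D * (s2 * z2) + e3 * (s2 * Y + t))) ^ k
      ≤ (s2 * (D * (r2 * z2) + e3 * (r2 * Y + t))) ^ k :=
    pow_le_pow_left₀ (by positivity) hQ k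
  have hmul := mul_le_mul hT hQk (by positivity) (by positivity)
  calc r2 ^ (k + 2) * ((e1 ^ 2 * (s2 * Y + t) ^ 2 + 4 * be * t * (s2 * z2))
      * (D * (s2 * z2) + e3 * (s2 * Y + t)) ^ k)
      = r2 ^ 2 * (e1 ^ 2 * (s2 * Y + t) ^ 2 + 4 * be * t * (s2 * z2))
        * (r2 * (D * (s2 * z2) + e3 * (s2 * Y + t))) ^ k := by
        rw [mul_pow r2, pow_add]; ring
    _ ≤ _ := hmul
    _ = _ := by rw [mul_pow s2, pow_add]; ring

theorem NF.hh_anti {d : ℕ} (S : NF d) (m : ℕ) (hm : 2 ≤ m) (c : ℝ) (hc0 : 0 ≤ c) (z τ : ℝ)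
    (y : Fin d → ℝ) (r s : ℝ) (hr : 0 < r) (hrs : r ≤ s) :
    r ^ (2 * m - 1) * S.hh m c (s * z) τ (s • y) ≤ s ^ (2 * m - 1) * S.hh m c (r * z) τ (r • y) := by
  obtain ⟨k, rfl⟩ : ∃ k, m = k + 2 := ⟨m - 2, by omega⟩
  have hs : 0 < s := hr.trans_le hrs
  have hbe := ps7_be_nonneg S
  have hY := ps7_dot_self_nonneg y
  have hYs : ∀ u : ℝ, (u • y) ⬝ᵥ (u • y) = u ^ 2 * (y ⬝ᵥ y) := by
    intro u
    rw [smul_dotProduct, dotProduct_smul, smul_eq_mul, smul_eq_mul]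
    ring
  have e1 : 2 * (k + 2) - 1 = (2 * k + 1) + 2 := by omega
  have e2 : 2 * (k + 2) - 3 = 2 * k + 1 := by omega
  have e3 : k + 2 - 2 = k := by omega
  unfold NF.hh
  rw [e1, e2, mul_add, mul_add, mul_add, mul_add]
  refine add_le_add (add_le_add (le_of_eq ?_) ?_) ?_
  · rw [abs_mul, abs_mul, abs_of_pos hs, abs_of_pos hr]
    ring
  · rw [ps7_RS, ps7_RS, ps7_U_smul, ps7_U_smul, abs_mul, abs_mul, abs_of_pos hs, abs_of_pos hr,
      mul_pow, mul_pow]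
    have hU := ps7_U_nonneg S c hc0 y
    have hV := ps7_V_nonneg S
    have h1 : r ^ 2 ≤ s ^ 2 := pow_le_pow_left₀ hr.le hrs 2
    have h2 : r ^ 2 * (τ ^ 2 * ps7_V S) ≤ s ^ 2 * (τ ^ 2 * ps7_V S) :=
      mul_le_mul_of_nonneg_right h1 (by positivity)
    have h3 : 1 / 2 * (r ^ (2 * k + 1) * s ^ (2 * k + 1) * |z| ^ (2 * k + 1))
        * (r ^ 2 * (τ ^ 2 * ps7_V S)) ≤ 1 / 2 * (r ^ (2 * k + 1) * s ^ (2 * k + 1)
        * |z| ^ (2 * k + 1)) * (s ^ 2 * (τ ^ 2 * ps7_V S)) :=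
      mul_le_mul_of_nonneg_left h2 (by positivity)
    calc r ^ (2 * k + 1 + 2) * (1 / 2 * (s ^ (2 * k + 1) * |z| ^ (2 * k + 1))
          * (s ^ 2 * ps7_U S c y + τ ^ 2 * ps7_V S))
        = 1 / 2 * (r ^ (2 * k + 1) * s ^ (2 * k + 1) * |z| ^ (2 * k + 1))
          * (r ^ 2 * s ^ 2 * ps7_U S c y)
          + 1 / 2 * (r ^ (2 * k + 1) * s ^ (2 * k + 1) * |z| ^ (2 * k + 1))
          * (r ^ 2 * (τ ^ 2 * ps7_V S)) := by ring
      _ ≤ 1 / 2 * (r ^ (2 * k + 1) * s ^ (2 * k + 1) * |z| ^ (2 * k + 1))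
          * (r ^ 2 * s ^ 2 * ps7_U S c y)
          + 1 / 2 * (r ^ (2 * k + 1) * s ^ (2 * k + 1) * |z| ^ (2 * k + 1))
          * (s ^ 2 * (τ ^ 2 * ps7_V S)) := by linarith
      _ = _ := by ring
  · unfold h3
    rw [e3, hYs, hYs]
    have hsq : ∀ u : ℝ, 0 < u → (√((u * z) ^ 2 + c * (u ^ 2 * (y ⬝ᵥ y))))⁻¹
        = u⁻¹ * (√(z ^ 2 + c * (y ⬝ᵥ y)))⁻¹ := by
      intro u hu
      have h1 : (u * z) ^ 2 + c * (u ^ 2 * (y ⬝ᵥ y)) = u ^ 2 * (z ^ 2 + c * (y ⬝ᵥ y)) := by ring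
      rw [h1, Real.sqrt_mul (sq_nonneg u), Real.sqrt_sq hu.le, mul_inv]
    rw [hsq s hs, hsq r hr]
    have hk : (0 : ℝ) ≤ (((k + 2 : ℕ) : ℝ) - 1) := by push_cast; linarith [Nat.cast_nonneg (α := ℝ) k]
    have hA : 0 ≤ (((k + 2 : ℕ) : ℝ) * (((k + 2 : ℕ) : ℝ) - 1) / 2) / (d : ℝ) ^ (k + 2)
        * (√(z ^ 2 + c * (y ⬝ᵥ y)))⁻¹ := by positivity
    have hmain := ps7_scalar ((d : ℝ) + 1) (2 * S.be + c) (S.be + c) S.be (z ^ 2) (y ⬝ᵥ y) (τ ^ 2)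
      (r ^ 2) (s ^ 2) k (by positivity) (by positivity) hbe (sq_nonneg _) hY (sq_nonneg _)
      (sq_nonneg _) (pow_le_pow_left₀ hr.le hrs 2)
    have hmain2 := mul_le_mul_of_nonneg_left hmain
      (mul_nonneg hA (mul_nonneg (inv_nonneg.2 hr.le) (inv_nonneg.2 hs.le)))
    have hr' : r ^ (2 * k + 1 + 2) = (r ^ 2) ^ (k + 2) * r⁻¹ := by
      field_simp
      ring
    have hs' : s ^ (2 * k + 1 + 2) = (s ^ 2) ^ (k + 2) * s⁻¹ := by
      field_simp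
      ring
    calc _ = _ := ?_
      _ ≤ _ := hmain2
      _ = _ := ?_
    · rw [hr']
      ring
    · rw [hs']
      ring

end Pool.Agent.Helper19.PS
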